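import Pool.Agent.Results.MP_dee342_nt.IntervalLengths
import Pool.Agent.Y854.GM.Win
import Pool.Agent.Y854.GM.Rate

/-!
# Windows without lengths of cycles of the 3x+1 map on the integers

Let `v ≥ 1` be a sequence with exponent of convergence at most `τ` (for `v_n = n ^ κ` this is `1 / κ`, for `v_n = b ^ n`
or `n!` it is `0`) and `0 ≤ θ < 1`. For all `α > 0` outside a set of Hausdorff dimension at most
`(12/13 + τ) / (1 - θ)`, for all but finitely many `n` no cycle `Z` of the `3x+1` map on the integers has a number of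
elements with `||Z| - α v_n| ≤ v_n ^ θ`. Along every sequence `⌊α n ^ κ⌋`, `κ > 1`, all but `N ^ (1 - δ)` of the first
`N` members are not lengths of cycles, for all `α` outside a set of dimension less than one.
-/

set_option autoImplicit false

namespace Pool.Agent.Results.MP_dee342_nt.CycleLengthWindows

open Finset

/-- The map `T_{a,b}` on the integers. -/
def T (a b x : ℤ) : ℤ := if x % 2 = 0 then x / 2 else (a * x + b) / 2

/-- `Z` is a cycle (periodic orbit) of `T_3 = T_{3,1}`. -/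
def IsCycle (Z : Finset ℤ) : Prop :=
  ∃ (x : ℤ) (p : ℕ), 1 ≤ p ∧ (T 3 1)^[p] x = x ∧ Z = (Finset.range p).image fun i => (T 3 1)^[i] x

/-- the exponent of convergence of the sequence `v` is at most `τ` -/
def ExpLe (v : ℕ → ℝ) (τ : ℝ) : Prop := ∀ t : ℝ, τ < t → Summable (fun n : ℕ => (v n) ^ (-t))

/-- the lengths of cycles -/
def Lengths : Set ℕ := {p : ℕ | ∃ Z : Finset ℤ, IsCycle Z ∧ Z.card = p}

open Classical in
lemma count : ∃ C : ℝ, 0 ≤ C ∧ ∀ X : ℕ, 1 ≤ X →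
    (((Ioc 0 X).filter (fun t => t ∈ Lengths)).card : ℝ) ≤ C * (X : ℝ) ^ ((12 : ℝ) / 13) := by
  obtain ⟨C, hC⟩ := IntervalLengths.result
  refine ⟨|C| * 2, by positivity, fun X hX => ?_⟩
  have h1 := hC 0 (X + 1) (by omega)
  have hX1 : (1 : ℝ) ≤ X := by exact_mod_cast hX
  have hfin : {p : ℕ | 0 ≤ p ∧ p < 0 + (X + 1) ∧ ∃ Z : Finset ℤ, IntervalLengths.IsCycle Z ∧ Z.card = p}.Finite :=
    (Set.finite_Iio (0 + (X + 1))).subset (fun p hp => hp.2.1)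
  have hsub : (((Ioc 0 X).filter (fun t => t ∈ Lengths) : Finset ℕ) : Set ℕ) ⊆
      {p : ℕ | 0 ≤ p ∧ p < 0 + (X + 1) ∧ ∃ Z : Finset ℤ, IntervalLengths.IsCycle Z ∧ Z.card = p} := by
    intro p hp
    rw [mem_coe, mem_filter, mem_Ioc] at hp
    exact ⟨Nat.zero_le _, by omega, hp.2⟩
  have h2 := Set.ncard_le_ncard hsub hfin
  rw [Set.ncard_coe_finset] at h2
  have h3 : (((Ioc 0 X).filter (fun t => t ∈ Lengths)).card : ℝ) ≤ C * ((X + 1 : ℕ) : ℝ) ^ ((12 : ℝ) / 13) := by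
    refine le_trans ?_ h1
    exact_mod_cast h2
  have h4 : ((X + 1 : ℕ) : ℝ) ^ ((12 : ℝ) / 13) ≤ 2 * (X : ℝ) ^ ((12 : ℝ) / 13) := by
    calc ((X + 1 : ℕ) : ℝ) ^ ((12 : ℝ) / 13) ≤ (2 * (X : ℝ)) ^ ((12 : ℝ) / 13) := by
          apply Real.rpow_le_rpow (Nat.cast_nonneg _) _ (by norm_num)
          push_cast
          linarith
      _ = 2 ^ ((12 : ℝ) / 13) * (X : ℝ) ^ ((12 : ℝ) / 13) := Real.mul_rpow (by norm_num) (by linarith)
      _ ≤ 2 * (X : ℝ) ^ ((12 : ℝ) / 13) := by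
          apply mul_le_mul_of_nonneg_right _ (by positivity)
          calc (2 : ℝ) ^ ((12 : ℝ) / 13) ≤ 2 ^ (1 : ℝ) :=
                Real.rpow_le_rpow_of_exponent_le (by norm_num) (by norm_num)
            _ = 2 := Real.rpow_one 2
  calc (((Ioc 0 X).filter (fun t => t ∈ Lengths)).card : ℝ) ≤ C * ((X + 1 : ℕ) : ℝ) ^ ((12 : ℝ) / 13) := h3
    _ ≤ |C| * ((X + 1 : ℕ) : ℝ) ^ ((12 : ℝ) / 13) := mul_le_mul_of_nonneg_right (le_abs_self C) (by positivity)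
    _ ≤ |C| * (2 * (X : ℝ) ^ ((12 : ℝ) / 13)) := mul_le_mul_of_nonneg_left h4 (abs_nonneg C)
    _ = |C| * 2 * (X : ℝ) ^ ((12 : ℝ) / 13) := by ring

open Classical in
/-- **Theorem.** (1) For all sequences `v ≥ 1` of exponent of convergence at most `τ ≥ 0` and `0 ≤ θ < 1` there is a set
`E` of Hausdorff dimension at most `(12/13 + τ) / (1 - θ)` such that for each `α > 0` outside `E` and all but finitely
many `n` no cycle `Z` of the `3x+1` map on the integers satisfies `||Z| - α v_n| ≤ v_n ^ θ`. (2) The sequences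
`v_n = (n + 1) ^ κ` and `v_n = b ^ n` have exponent of convergence at most `1 / κ` and `0`. (3) For all `κ > 1` there is
a set `E` of dimension less than one such that for each `α > 0` outside `E` there is `δ > 0` such that for all large `N`
at most `N ^ (1 - δ)` of the integers `⌊α n ^ κ⌋`, `n ≤ N`, are numbers of elements of cycles. -/
theorem result :
    (∀ (v : ℕ → ℝ) (τ θ : ℝ), (∀ n, 1 ≤ v n) → 0 ≤ τ → ExpLe v τ → 0 ≤ θ → θ < 1 →
      ∃ E : Set ℝ, dimH E ≤ ENNReal.ofReal ((12 / 13 + τ) / (1 - θ)) ∧ ∀ α : ℝ, 0 < α → α ∉ E →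
        ∃ n₀ : ℕ, ∀ n : ℕ, n₀ ≤ n → ∀ Z : Finset ℤ, IsCycle Z → (v n) ^ θ < |(Z.card : ℝ) - α * v n|) ∧
    (∀ κ : ℝ, 0 < κ → ExpLe (fun n : ℕ => ((n : ℝ) + 1) ^ κ) (1 / κ)) ∧
    (∀ b : ℝ, 1 < b → ExpLe (fun n : ℕ => b ^ n) 0) ∧
    (∀ κ : ℝ, 1 < κ → ∃ E : Set ℝ, dimH E < 1 ∧ ∀ α : ℝ, 0 < α → α ∉ E →
      ∃ δ : ℝ, 0 < δ ∧ δ < 1 ∧ ∃ N₀ : ℕ, ∀ N : ℕ, N₀ ≤ N →
        (((Icc 1 N).filter (fun n : ℕ => ∃ Z : Finset ℤ, IsCycle Z ∧ Z.card = ⌊α * (n : ℝ) ^ κ⌋₊)).card : ℝ) ≤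
          (N : ℝ) ^ (1 - δ)) := by
  obtain ⟨C, hC0, hC⟩ := count
  refine ⟨fun v τ θ hv hτ hE hθ hθ1 => ?_, fun κ hκ => Pool.Agent.Y854.GM.expLe_pow κ hκ,
    fun b hb => Pool.Agent.Y854.GM.expLe_geom b hb, fun κ hκ => ?_⟩
  · obtain ⟨E, h1, h2⟩ := Pool.Agent.Y854.GM.win_nat Lengths hv hτ hE (s := 12 / 13) (by norm_num) hθ1
      (fun ε hε => ⟨C, fun X hX => (hC X hX).trans (mul_le_mul_of_nonneg_left
        (Real.rpow_le_rpow_of_exponent_le (by exact_mod_cast hX) (by linarith)) hC0)⟩)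
    refine ⟨E, h1, fun α hα hαE => ?_⟩
    obtain ⟨n₀, hn⟩ := h2 α hα hαE
    refine ⟨n₀, fun n hn1 Z hZ => ?_⟩
    by_contra hcon
    push Not at hcon
    exact (hn n hn1 Z.card hcon).2 ⟨Z, hZ, rfl⟩
  · obtain ⟨E, hE, h⟩ := Pool.Agent.Y854.GM.sets_pow κ hκ (fun _ : Unit => Lengths)
    refine ⟨E, hE, fun α hα hαE => ?_⟩
    obtain ⟨δ, hδ, hδ1, N₀, hN⟩ := h α hα hαE () (1 / 13) C (by norm_num) ⟨1, fun X hX => by
      have h1 := hC X hX
      rw [show (12 : ℝ) / 13 = 1 - 1 / 13 by norm_num] at h1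
      exact h1⟩
    refine ⟨δ, hδ, hδ1, N₀, fun N hNN => le_trans ?_ (hN N hNN)⟩
    have hsub : (Icc 1 N).filter (fun n : ℕ => ∃ Z : Finset ℤ, IsCycle Z ∧ Z.card = ⌊α * (n : ℝ) ^ κ⌋₊) ⊆
        (Icc 1 N).filter (fun n : ℕ => ⌊α * (n : ℝ) ^ κ⌋₊ ∈ Lengths) := by
      intro n hn
      rw [mem_filter] at hn ⊢
      exact hn
    exact_mod_cast Finset.card_le_card hsub

end Pool.Agent.Results.MP_dee342_nt.CycleLengthWindows
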