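import Pool.Agent.Y927.GP.M2
import Pool.Agent.Y57.HS.Traj2

/-!
# Cycles of the maps `T_{a,b}` and the integers which arise from an arbitrary integer by changing a few digits

In every odd base `q` all but a proportion `exp (-δ s)` of the integers `n` which arise from an arbitrary integer with at most `B s` digits by
changing `s` digits have the following property: every cycle of `T_{3,b}` through `n` contains an element of absolute value at most
`n ^ (1 - η)`, and every cycle of `T_{a,b}`, `a ≥ 5`, through `n` contains an element of absolute value at least `n ^ (1 + η)`; the same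
holds for `-n`.
-/

set_option autoImplicit false

namespace Pool.Agent.Results.MP_dee342_nt.FewDigitChanges

open Finset Filter Polynomial Pool.Agent.Y927.GP

/-- The map `T_{a,b}`. -/
def T (a b x : ℤ) : ℤ := if x % 2 = 0 then x / 2 else (a * x + b) / 2

/-- The set `c` is a cycle (periodic orbit) of the map `F`. -/
def IsCycle (F : ℤ → ℤ) (c : Set ℤ) : Prop :=
  ∃ (x : ℤ) (p : ℕ), 1 ≤ p ∧ F^[p] x = x ∧ c = {y | ∃ k < p, y = F^[k] x}

/-- The digit number `i` (counted from the right, beginning with `0`) of `n` in base `q`. -/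
def digit (q i n : ℕ) : ℕ := n / q ^ i % q

/-- The number which arises from the number `N` with at most `K` digits in base `q`, if for every `i ∈ S`
the digit number `i` is replaced by `φ i`. -/
def change (q K N : ℕ) (φ : ℕ → ℕ) (S : Finset ℕ) : ℕ :=
  ∑ i ∈ range K, (if i ∈ S then φ i else digit q i N) * q ^ i

open Classical in
/-- The number of the choices of `s` of the `K` positions for which the number obtained by changing the digits of `N` at
the chosen positions (according to `φ`) does not have the property `E`. -/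
noncomputable def exceptions (q K s N : ℕ) (φ : ℕ → ℕ) (E : ℕ → Prop) : ℕ :=
  ((powersetCard s (range K)).filter (fun S => ¬ E (change q K N φ S))).card

theorem exceptions_le {q K s N : ℕ} {φ : ℕ → ℕ} {E : ℕ → Prop} {X : ℝ}
    (h : ∀ A ⊆ powersetCard s (range K), (∀ S ∈ A, ¬ E (change q K N φ S)) → (A.card : ℝ) ≤ X) :
    (exceptions q K s N φ E : ℝ) ≤ X := by
  classical
  unfold exceptions
  exact h _ (filter_subset _ _) (fun S hS => (mem_filter.1 hS).2)

theorem cycle_iter {F : ℤ → ℤ} {c : Set ℤ} (h : IsCycle F c) {y : ℤ} (hy : y ∈ c) (j : ℕ) : F^[j] y ∈ c := by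
  obtain ⟨x, p, hp, hx, rfl⟩ := h
  obtain ⟨k, hk, rfl⟩ := hy
  refine ⟨(j + k) % p, Nat.mod_lt _ (by omega), ?_⟩
  rw [← Function.iterate_add_apply]
  conv_lhs => rw [← Nat.mod_add_div (j + k) p]
  rw [Function.iterate_add_apply]
  congr 1
  have : ∀ t : ℕ, F^[p * t] x = x := by
    intro t
    rw [Function.iterate_mul]
    exact Function.iterate_fixed hx t
  exact this _

/-- The map in the library. -/
theorem T_eq (a : ℕ) (b : ℤ) : Mo.T 2 a (fun _ => -b) = T a b := by
  funext x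
  unfold Mo.T T
  push_cast
  split_ifs with h
  · rfl
  · congr 1
    ring

/-- `σ X` -/
theorem lin_deg (σ : ℤ) (hσ : σ = 1 ∨ σ = -1) : (C σ * X : ℤ[X]).natDegree = 1 := by
  apply natDegree_C_mul_X
  rcases hσ with h | h <;> rw [h] <;> norm_num

/-- **Main theorem.** Let `a ≥ 1` and `b` be odd, `σ = 1` or `σ = -1`, `q ≥ 2` odd and `B > 0`. In what follows `0 ≤ N < q ^ K` is an
arbitrary integer with `2 s ≤ K ≤ B s`, for every position `j` a digit `φ j` different from the digit of `N` in base `q` is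
prescribed, `s` of the `K` positions are chosen and the digits of `N` at these positions are replaced; `n` is the number obtained.
1. If `a ≤ 3`, there are `η, δ > 0` and `s₀` such that for all `s ≥ s₀`, `K`, `N` and `φ` and for all but at most a proportion
`exp (-δ s)` of the choices the orbit of `σ n` under `T_{a,b}` has an element of absolute value at most `n ^ (1 - η)`; in particular every
cycle of `T_{a,b}` through `σ n` contains such an element.
2. If `a ≥ 5`, there are `η, δ > 0` and `s₀` such that for all `s ≥ s₀`, `K`, `N` and `φ` and for all but at most a proportion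
`exp (-δ s)` of the choices the orbit of `σ n` under `T_{a,b}` has an element of absolute value at least `n ^ (1 + η)`; in particular every
cycle of `T_{a,b}` through `σ n` contains such an element. -/
theorem result (a : ℕ) (ha : Odd a) (b : ℤ) (hb : Odd b) (σ : ℤ) (hσ : σ = 1 ∨ σ = -1) (q : ℕ) (hq : 2 ≤ q) (hq2 : Odd q)
    (B : ℝ) :
    (a ≤ 3 → ∃ η δ : ℝ, 0 < η ∧ 0 < δ ∧ ∃ s₀ : ℕ, ∀ s K : ℕ, s₀ ≤ s → 2 * s ≤ K → (K : ℝ) ≤ B * s →
      ∀ N : ℕ, N < q ^ K → ∀ φ : ℕ → ℕ, (∀ j, φ j < q ∧ φ j ≠ digit q j N) →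
      (exceptions q K s N φ (fun n => (∃ k : ℕ, |(((T a b)^[k] (σ * n) : ℤ) : ℝ)| ≤ (n : ℝ) ^ (1 - η)) ∧
        ∀ c : Set ℤ, IsCycle (T a b) c → σ * n ∈ c → ∃ x ∈ c, |(x : ℝ)| ≤ (n : ℝ) ^ (1 - η)) : ℝ) ≤
          Real.exp (-(δ * s)) * (K.choose s : ℝ)) ∧
    (5 ≤ a → ∃ η δ : ℝ, 0 < η ∧ 0 < δ ∧ ∃ s₀ : ℕ, ∀ s K : ℕ, s₀ ≤ s → 2 * s ≤ K → (K : ℝ) ≤ B * s →
      ∀ N : ℕ, N < q ^ K → ∀ φ : ℕ → ℕ, (∀ j, φ j < q ∧ φ j ≠ digit q j N) →
      (exceptions q K s N φ (fun n => (∃ k : ℕ, (n : ℝ) ^ (1 + η) ≤ |(((T a b)^[k] (σ * n) : ℤ) : ℝ)|) ∧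
        ∀ c : Set ℤ, IsCycle (T a b) c → σ * n ∈ c → ∃ x ∈ c, (n : ℝ) ^ (1 + η) ≤ |(x : ℝ)|) : ℝ) ≤
          Real.exp (-(δ * s)) * (K.choose s : ℝ)) := by
  have ha1 : 1 ≤ a := ha.pos
  have hc : Nat.Coprime a 2 := (Nat.coprime_two_right).2 ha
  have hr : ∀ j : ℤ, 1 ≤ j → j < (2 : ℕ) → ((2 : ℕ) : ℤ) ∣ a * j - (fun _ : ℤ => -b) j := by
    intro j h1 h2
    push_cast at h2 ⊢
    have hj : j = 1 := by omega
    rw [hj]
    obtain ⟨u, hu⟩ := ha
    obtain ⟨v, hv⟩ := hb
    rw [hu, hv]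
    push_cast
    exact ⟨u + v + 1, by ring⟩
  have D := Mo.data (r := fun _ => -b) (le_refl 2) hc hr
  have hC := Mo.cls (m := a) (r := fun _ => -b) (le_refl 2)
  have hTT : (Pool.Agent.H319R2.Leigh.gm D).T = T a b := by rw [Pool.Agent.H319R2.Leigh.gm_T, Mo.T_eq, T_eq]
  have hqd' : Nat.Coprime q (Pool.Agent.H319R2.Leigh.gm D).d := (Nat.coprime_two_right).2 hq2
  have hmu := Mo.mu_eq (le_refl 2) D
  have hdeg := (lin_deg σ hσ).ge
  have hl2 : 0 < Real.log 2 := Real.log_pos (by norm_num)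
  have hev : ∀ n : ℕ, (C σ * X : ℤ[X]).eval (n : ℤ) = σ * n := by
    intro n
    simp
  have habs : ∀ n : ℕ, |((σ * n : ℤ) : ℝ)| = n := by
    intro n
    push_cast
    rw [abs_mul]
    rcases hσ with h | h <;> rw [h] <;> simp
  refine ⟨fun ha3 => ?_, fun ha5 => ?_⟩
  · have hμ : mu (Pool.Agent.H319R2.Leigh.gm D) (Mo.CC 2) (fun _ => 1 / ((2 : ℕ) : ℝ)) < 0 := by
      rw [hmu]
      have h1 : Real.log a ≤ Real.log 3 := Real.log_le_log (by exact_mod_cast ha1) (by exact_mod_cast ha3)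
      have h2 : Real.log 3 < 2 * Real.log 2 := by
        have : (2 : ℝ) * Real.log 2 = Real.log 4 := by
          rw [show (4 : ℝ) = 2 ^ 2 by norm_num, Real.log_pow]
          norm_num
        rw [this]
        exact Real.log_lt_log (by norm_num) (by norm_num)
      push_cast
      norm_num
      linarith
    obtain ⟨η, δ, hη, hδ, s₀, h⟩ := Pool.Agent.Y57.HS.drop_pow (Pool.Agent.H319R2.Leigh.gm_fac D)
      (Pool.Agent.H319R2.Leigh.gm_cls D hC) hμ hdeg q hq hqd' B
    rw [hTT] at h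
    refine ⟨η, δ, hη, hδ, s₀, fun s K hs hsK hKB N hN φ hφ => ?_⟩
    apply exceptions_le
    intro A hA hE
    refine h s K hs hsK hKB N hN φ hφ A hA (fun S hS => ⟨Mo.mem_S (le_refl 2) _, fun k => ?_⟩)
    by_contra hcon
    push Not at hcon
    apply hE S hS
    rw [hev, habs] at hcon
    have h1 : |(((T a b)^[k] (σ * ((change q K N φ S : ℕ) : ℤ)) : ℤ) : ℝ)| ≤ ((change q K N φ S : ℕ) : ℝ) ^ (1 - η) := hcon
    exact ⟨⟨k, h1⟩, fun c hc' hmem => ⟨_, cycle_iter hc' hmem k, h1⟩⟩
  · have hμ : 0 < mu (Pool.Agent.H319R2.Leigh.gm D) (Mo.CC 2) (fun _ => 1 / ((2 : ℕ) : ℝ)) := by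
      rw [hmu]
      have h1 : Real.log 5 ≤ Real.log a := Real.log_le_log (by norm_num) (by exact_mod_cast ha5)
      have h2 : 2 * Real.log 2 < Real.log 5 := by
        have : (2 : ℝ) * Real.log 2 = Real.log 4 := by
          rw [show (4 : ℝ) = 2 ^ 2 by norm_num, Real.log_pow]
          norm_num
        rw [this]
        exact Real.log_lt_log (by norm_num) (by norm_num)
      push_cast
      norm_num
      linarith
    obtain ⟨η, δ, hη, hδ, s₀, h⟩ := Pool.Agent.Y57.HS.rise_pow (Pool.Agent.H319R2.Leigh.gm_fac D)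
      (Pool.Agent.H319R2.Leigh.gm_cls D hC) hμ hdeg q hq hqd' B
    rw [hTT] at h
    refine ⟨η, δ, hη, hδ, s₀, fun s K hs hsK hKB N hN φ hφ => ?_⟩
    apply exceptions_le
    intro A hA hE
    refine h s K hs hsK hKB N hN φ hφ A hA (fun S hS => ⟨Mo.mem_S (le_refl 2) _, fun k => ?_⟩)
    by_contra hcon
    push Not at hcon
    apply hE S hS
    rw [hev, habs] at hcon
    have h1 : ((change q K N φ S : ℕ) : ℝ) ^ (1 + η) ≤ |(((T a b)^[k] (σ * ((change q K N φ S : ℕ) : ℤ)) : ℤ) : ℝ)| := hcon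
    exact ⟨⟨k, h1⟩, fun c hc' hmem => ⟨_, cycle_iter hc' hmem k, h1⟩⟩

end Pool.Agent.Results.MP_dee342_nt.FewDigitChanges
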