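import Mathlib
import Pool.Agent.Y780.Cz.Low3

set_option autoImplicit false

/-!
# The parity words of cycles are far from all words of linear complexity

Let `a` be an odd prime and `A` a real number. If the parity word (over the smallest period `p`) of a
periodic integer `x` of `T_{a,b}` is a concatenation of `m` words with at most `A n` factors of each
length `n ≥ M`, then `p ≤ B ^ (m + 1) (M + log |b| + (1 + log p) ^ 2)`, with a constant `B` which
depends on `a` and `A` only. The same holds with `m` replaced by the Hamming distance of the parity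
word from any word with at most `A n` factors of each length `n ≥ M`. So for fixed `b` (in particular
for the `3x+1` and the `5x+1` map) `m` and the Hamming distance are at least `c log p - C`, where
`c > 0` depends on `a` and `A` only.
-/

namespace Pool.Agent.Results.MP_dee342_nt.LinearComplexityPieces

/-- The map `T_{a,b}` on the integers: `(a x + b) / 2` for odd `x`, `x / 2` for even `x`. -/
def T (a b x : ℤ) : ℤ := if x % 2 = 0 then x / 2 else (a * x + b) / 2

/-- The parity word of length `n` of `x`: its `i`-th letter is `true` if the `i`-th iterate is odd. -/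
def parityWord (a b x : ℤ) (n : ℕ) : List Bool :=
  (List.range n).map fun i => decide ((T a b)^[i] x % 2 = 1)

/-- The complexity function of a word: the number of its different factors (blocks of consecutive
letters) of length `n`. -/
def complexity (u : List Bool) (n : ℕ) : ℕ :=
  ((Finset.range (u.length + 1 - n)).image fun i => (u.drop i).take n).card

/-- The number of places in which two words differ. -/
def hammingDistance (u v : List Bool) : ℕ := ((u.zip v).filter fun a => a.1 != a.2).length

/-- The word `u` has at most `A n` factors of length `n`, for every `n ≥ M`. -/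
def LinearComplexity (A : ℝ) (M : ℕ) (u : List Bool) : Prop :=
  ∀ n : ℕ, M ≤ n → (complexity u n : ℝ) ≤ A * n

/-- `x` is a periodic point of `T a b` with smallest period `p ≥ 1`. -/
def HasPeriod (a b x : ℤ) (p : ℕ) : Prop :=
  1 ≤ p ∧ (T a b)^[p] x = x ∧ Set.InjOn (fun i : ℕ => (T a b)^[i] x) (Set.Iio p)

/-- Let `a` be an odd prime and `A` a real number.
(1) There is `B ≥ 1` such that for all odd `b`, every periodic integer `x` of `T_{a,b}` with smallest
period `p` and all `M ≥ 1`: if the parity word of `x` of length `p` is a concatenation of `m` words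
with at most `A n` factors of each length `n ≥ M`, then
`p ≤ B ^ (m + 1) (M + log |b| + (1 + log p) ^ 2)`; and if `v` is any word of length `p` with at most
`A n` factors of each length `n ≥ M`, at Hamming distance `D` from the parity word, then
`p ≤ B ^ (D + 1) (M + log |b| + (1 + log p) ^ 2)`.
(2) There is `c > 0` such that for every odd `b` there is `C` with: for every periodic integer `x` of
`T_{a,b}` with smallest period `p`, the parity word of `x` of length `p` is not a concatenation of
fewer than `c log p - C` words with at most `A n` factors of each length `n ≥ 1`, and it differs in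
at least `c log p - C` places from each word of length `p` with at most `A n` factors of each length
`n ≥ 1`. -/
theorem result (a : ℕ) (ha : a.Prime) (ha2 : a ≠ 2) (A : ℝ) :
    (∃ B : ℝ, 1 ≤ B ∧ ∀ b : ℤ, b % 2 = 1 → ∀ (x : ℤ) (p : ℕ), HasPeriod a b x p →
      ∀ M : ℕ, 1 ≤ M →
        (∀ W : List (List Bool), W.flatten = parityWord a b x p →
          (∀ u ∈ W, LinearComplexity A M u) →
          (p : ℝ) ≤ B ^ (W.length + 1) * (M + Real.log |(b : ℝ)| + (1 + Real.log p) ^ 2)) ∧
        (∀ v : List Bool, v.length = p → LinearComplexity A M v →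
          (p : ℝ) ≤ B ^ (hammingDistance (parityWord a b x p) v + 1) *
            (M + Real.log |(b : ℝ)| + (1 + Real.log p) ^ 2))) ∧
    (∃ c : ℝ, 0 < c ∧ ∀ b : ℤ, b % 2 = 1 → ∃ C : ℝ, ∀ (x : ℤ) (p : ℕ), HasPeriod a b x p →
      (∀ W : List (List Bool), W.flatten = parityWord a b x p →
        (∀ u ∈ W, LinearComplexity A 1 u) → c * Real.log p - C ≤ W.length) ∧
      (∀ v : List Bool, v.length = p → LinearComplexity A 1 v →
        c * Real.log p - C ≤ hammingDistance (parityWord a b x p) v)) := by
  obtain ⟨B1, hB1, h1⟩ := Pool.Agent.Y780.Cz.lin_cycle ha ha2 A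
  obtain ⟨B2, hB2, h2⟩ := Pool.Agent.Y780.Cz.lin_ham_cycle ha ha2 A
  set B : ℝ := max B1 B2 with hB
  have hb1 : B1 ≤ B := le_max_left _ _
  have hb2 : B2 ≤ B := le_max_right _ _
  have hB0 : 1 ≤ B := hB1.trans hb1
  have hinj : ∀ (b x : ℤ) (N : ℕ), Set.InjOn (fun i : ℕ => (T a b)^[i] x) (Set.Iio N) →
      ∀ i < N, ∀ j < N, (Pool.Agent.Y780.Cz.T a b)^[i] x = (Pool.Agent.Y780.Cz.T a b)^[j] x →
        i = j := fun b x N h i hi j hj he => h hi hj he
  have key1 : ∀ b : ℤ, b % 2 = 1 → ∀ (x : ℤ) (p : ℕ), HasPeriod a b x p → ∀ M : ℕ, 1 ≤ M →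
      ∀ W : List (List Bool), W.flatten = parityWord a b x p →
        (∀ u ∈ W, LinearComplexity A M u) →
        (p : ℝ) ≤ B ^ (W.length + 1) * (M + Real.log |(b : ℝ)| + (1 + Real.log p) ^ 2) := by
    intro b hb x p hp M hM W hW hlow
    have hk0 : 0 ≤ Real.log |(b : ℝ)| := Real.log_nonneg (Pool.Agent.Y780.Cz.one_le_abs_k hb)
    exact (h1 b hb x M p W hM hp.1 hp.2.1 (hinj b x p hp.2.2) hW hlow).trans
      (mul_le_mul_of_nonneg_right (pow_le_pow_left₀ (by linarith) hb1 _) (by positivity))
  have key2 : ∀ b : ℤ, b % 2 = 1 → ∀ (x : ℤ) (p : ℕ), HasPeriod a b x p → ∀ M : ℕ, 1 ≤ M →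
      ∀ v : List Bool, v.length = p → LinearComplexity A M v →
        (p : ℝ) ≤ B ^ (hammingDistance (parityWord a b x p) v + 1) *
          (M + Real.log |(b : ℝ)| + (1 + Real.log p) ^ 2) := by
    intro b hb x p hp M hM v hv hlow
    have hk0 : 0 ≤ Real.log |(b : ℝ)| := Real.log_nonneg (Pool.Agent.Y780.Cz.one_le_abs_k hb)
    exact (h2 b hb x M p v hM hp.1 hp.2.1 (hinj b x p hp.2.2) hv hlow).trans
      (mul_le_mul_of_nonneg_right (pow_le_pow_left₀ (by linarith) hb2 _) (by positivity))
  refine ⟨⟨B, hB0, fun b hb x p hp M hM => ⟨key1 b hb x p hp M hM, key2 b hb x p hp M hM⟩⟩,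
    1 / (2 * Real.log (B + 1)), ?_, fun b hb => ?_⟩
  · have : 0 < Real.log (B + 1) := Real.log_pos (by linarith)
    positivity
  · have hk0 : 0 ≤ Real.log |(b : ℝ)| := Real.log_nonneg (Pool.Agent.Y780.Cz.one_le_abs_k hb)
    obtain ⟨C, hC⟩ := Pool.Agent.Y780.Cz.lower_of_upper (B := B) (E := 1 + Real.log |(b : ℝ)|) hB0
      (by linarith)
    refine ⟨C, fun x p hp => ⟨fun W hW hlow => ?_, fun v hv hlow => ?_⟩⟩
    · have h3 := key1 b hb x p hp 1 le_rfl W hW hlow
      push_cast at h3
      have h4 := hC p W.length hp.1 h3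
      rw [one_div_mul_eq_div]
      exact h4
    · have h3 := key2 b hb x p hp 1 le_rfl v hv hlow
      push_cast at h3
      have h4 := hC p _ hp.1 h3
      rw [one_div_mul_eq_div]
      exact h4

end Pool.Agent.Results.MP_dee342_nt.LinearComplexityPieces
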